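import Pool.Agent.H808R3.QH.Defs

set_option autoImplicit false

namespace Pool.Agent.H808R3.QH

variable {n : ℕ}

/-- maps that are affine, with one common linear part, on the cosets of the centre -/
def FibAff (h : N n → N n) : Prop :=
  ∃ (B : ImH →ₗ[ℝ] ImH) (a : V1 n → V1 n) (c : V1 n → ImH),
    ∀ x : N n, h x = ⟨a x.h, B x.c + c x.h⟩

lemma FibAff.comp {f g : N n → N n} (hf : FibAff f) (hg : FibAff g) : FibAff (f ∘ g) := by
  obtain ⟨B, a, c, hB⟩ := hf
  obtain ⟨B', a', c', hB'⟩ := hg
  refine ⟨B.comp B', a ∘ a', fun v => B (c' v) + c (a' v), fun x => ?_⟩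
  rw [Function.comp_apply, hB', hB]
  simp only [map_add, LinearMap.comp_apply, Function.comp_apply]
  rw [add_assoc]

lemma fibAff_mulLeft (g : N n) : FibAff (fun x : N n => g * x) := by
  refine ⟨LinearMap.id, fun v => g.h + v, fun v => g.c + (1 / 2 : ℝ) • bracket g.h v, fun x => ?_⟩
  apply N.ext
  · rfl
  · simp only [mul_c, LinearMap.id_apply]
    abel

lemma fibAff_shear (g : V1 n → ImH) : FibAff (fun x : N n => (⟨x.h, x.c + g x.h⟩ : N n)) :=
  ⟨LinearMap.id, id, g, fun _ => rfl⟩

lemma cen_mul (z w : ImH) : (cen z : N n) * cen w = cen (z + w) := by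
  apply N.ext <;> simp [cen]

lemma cen_comm (z : ImH) (x : N n) : cen z * x = x * cen z := by
  apply N.ext
  · simp [cen]
  · simp [cen, add_comm]

lemma coe_sum' (f : Fin n → ℝ) :
    ((∑ i, f i : ℝ) : Quaternion ℝ) = ∑ i, ((f i : ℝ) : Quaternion ℝ) := by
  have h := map_sum (algebraMap ℝ (Quaternion ℝ)) f Finset.univ
  simpa only [Quaternion.algebraMap_def] using h

lemma central_imp (x : N n) (hx : ∀ y, x * y = y * x) : x.h = 0 := by
  by_contra hne
  -- test against the horizontal vector with coordinates `xᵢ * i`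
  set I : Quaternion ℝ := ⟨0, 1, 0, 0⟩ with hI
  set q : V1 n := WithLp.toLp 2 (fun i => x.h i * I) with hq
  have h1 : bracket x.h q = 0 := by
    have h2 := congrArg N.c (hx (hor q))
    simp only [mul_c, hor, add_zero, zero_add] at h2
    have h3 : bracket x.h q = bracket q x.h := by
      have h4 : (1 / 2 : ℝ) • bracket x.h q = (1 / 2 : ℝ) • bracket q x.h := add_left_cancel h2
      exact smul_right_injective _ (by norm_num : (1 / 2 : ℝ) ≠ 0) h4
    have h5 := bracket_swap x.h q
    rw [← h3] at h5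
    have : (2 : ℝ) • bracket x.h q = 0 := by
      rw [two_smul]
      nth_rewrite 1 [h5]
      rw [neg_add_cancel]
    exact (smul_eq_zero.1 this).resolve_left (by norm_num)
  have h2 : ((bracket x.h q : ImH) : Quaternion ℝ).imI = -2 * ∑ i, ‖x.h i‖ ^ 2 := by
    have e : (∑ i, star (q i) * x.h i : Quaternion ℝ) =
        star I * ((∑ i, ‖x.h i‖ ^ 2 : ℝ) : Quaternion ℝ) := by
      rw [show ((∑ i, ‖x.h i‖ ^ 2 : ℝ) : Quaternion ℝ) = ∑ i, ((‖x.h i‖ ^ 2 : ℝ) : Quaternion ℝ) from
        coe_sum' _]
      rw [Finset.mul_sum]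
      refine Finset.sum_congr rfl fun i _ => ?_
      have : q i = x.h i * I := rfl
      rw [this, star_mul, mul_assoc, Quaternion.star_mul_self, Quaternion.normSq_eq_norm_mul_self,
        sq]
    show ((2 : ℝ) • (∑ i, star (q i) * x.h i).im : Quaternion ℝ).imI = _
    rw [e]
    have hs : (star I).imI = -1 := by
      rw [Quaternion.imI_star]
    rw [Quaternion.imI_smul, Quaternion.imI_im, Quaternion.mul_coe_eq_smul, Quaternion.imI_smul, hs]
    simp
  rw [h1] at h2
  have h3 : (∑ i, ‖x.h i‖ ^ 2) = 0 := by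
    have : ((0 : ImH) : Quaternion ℝ).imI = 0 := rfl
    rw [this] at h2
    linarith
  apply hne
  ext1 i
  have h4 := (Finset.sum_eq_zero_iff_of_nonneg (fun i _ => by positivity)).1 h3 i (Finset.mem_univ i)
  have h5 : ‖x.h i‖ = 0 := by
    exact pow_eq_zero_iff (two_ne_zero) |>.1 h4
  exact norm_eq_zero.1 h5

lemma fibAff_aut (e : N n ≃* N n) (he : Continuous e) : FibAff e := by
  have hc : ∀ z : ImH, (e (cen z)).h = 0 := by
    intro z
    apply central_imp
    intro y
    obtain ⟨y', rfl⟩ := e.surjective y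
    rw [← map_mul, ← map_mul, cen_comm]
  let b : ImH →+ ImH :=
    { toFun := fun z => (e (cen z)).c
      map_zero' := by
        have : (cen 0 : N n) = 1 := rfl
        rw [this, map_one]; rfl
      map_add' := by
        intro z w
        rw [← cen_mul, map_mul, mul_c, hc z]
        simp }
  have hb : Continuous b := by
    have h1 : Continuous (fun z : ImH => (cen z : N n)) := by
      apply continuous_induced_rng.2
      exact continuous_const.prodMk continuous_id
    have h2 : Continuous (fun x : N n => x.c) := by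
      have : Continuous (fun x : N n => (x.h, x.c)) := continuous_induced_dom
      exact continuous_snd.comp this
    exact h2.comp (he.comp h1)
  refine ⟨(b.toRealLinearMap hb : ImH →L[ℝ] ImH), fun v => (e (hor v)).h, fun v => (e (hor v)).c,
    fun x => ?_⟩
  have hx : x = hor x.h * cen x.c := by
    apply N.ext <;> simp [hor, cen]
  have h3 : e x = e (hor x.h) * e (cen x.c) := by
    conv_lhs => rw [hx]
    rw [map_mul]
  rw [h3]
  apply N.ext
  · simp [hc]
  · simp only [mul_c, hc, bracket_zero_right, smul_zero, add_zero]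
    rw [add_comm]
    rfl

/-- all generalized affine maps are affine on the cosets of the centre -/
lemma fibAff_gen (h : Equiv.Perm (N n)) (hh : h ∈ generalizedAffineGroup n) :
    FibAff h ∧ FibAff (h⁻¹ : Equiv.Perm (N n)) := by
  have key : ∀ (S : Set (Equiv.Perm (N n))), (∀ f ∈ S, FibAff f ∧ FibAff (f⁻¹ : Equiv.Perm (N n))) →
      ∀ f ∈ Subgroup.closure S, FibAff f ∧ FibAff (f⁻¹ : Equiv.Perm (N n)) := by
    intro S hS f hf
    induction hf using Subgroup.closure_induction with
    | mem f hf => exact hS f hf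
    | one => exact ⟨⟨LinearMap.id, id, 0, fun x => by simp⟩, ⟨LinearMap.id, id, 0, fun x => by simp⟩⟩
    | mul f g _ _ hf hg =>
      refine ⟨?_, ?_⟩
      · exact hf.1.comp hg.1
      · rw [mul_inv_rev]
        exact hg.2.comp hf.2
    | inv f _ hf => exact ⟨hf.2, by rw [inv_inv]; exact hf.1⟩
  apply key _ _ h hh
  rintro f (hf | ⟨g, -, rfl⟩)
  · apply key _ _ f hf
    rintro f (⟨g, rfl⟩ | ⟨e, he, he', rfl⟩)
    · refine ⟨fibAff_mulLeft g, ?_⟩
      exact fibAff_mulLeft g⁻¹
    · exact ⟨fibAff_aut e he, fibAff_aut e.symm he'⟩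
  · refine ⟨fibAff_shear g, ?_⟩
    have : ((shear g)⁻¹ : Equiv.Perm (N n)) = (fun x : N n => (⟨x.h, x.c + (fun v => - g v) x.h⟩ : N n)) := by
      funext x
      show (⟨x.h, x.c - g x.h⟩ : N n) = _
      rw [sub_eq_add_neg]
    rw [this]
    exact fibAff_shear (fun v => - g v)

end Pool.Agent.H808R3.QH
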