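import Mathlib

set_option autoImplicit false

noncomputable section

namespace Pool.Agent.H808R3.QH

/-- `V₂ = Im ℍ`, the purely imaginary quaternions. -/
def ImH : Submodule ℝ (Quaternion ℝ) where
  carrier := {q | q.re = 0}
  add_mem' := by
    intro a b ha hb
    simp only [Set.mem_ofPred_eq, Quaternion.re_add] at *
    rw [ha, hb, add_zero]
  zero_mem' := rfl
  smul_mem' := by
    intro c a ha
    simp only [Set.mem_ofPred_eq, Quaternion.re_smul, smul_eq_mul] at *
    rw [ha, mul_zero]

/-- `V₁ = ℍⁿ` with its Euclidean norm. -/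
abbrev V1 (n : ℕ) : Type := PiLp 2 (fun _ : Fin n => Quaternion ℝ)

/-- The Lie bracket `[p,q] = 2 Im (∑ conj(qᵢ) pᵢ)` on `V₁`. -/
def bracket {n : ℕ} (p q : V1 n) : ImH :=
  ⟨(2 : ℝ) • (∑ i, star (q i) * p i).im, by
    show ((2 : ℝ) • (∑ i, star (q i) * p i).im).re = 0
    simp⟩

/-- The quaternionic Heisenberg group, identified with its Lie algebra `V₁ ⊕ V₂`. -/
@[ext] structure N (n : ℕ) : Type where
  h : V1 n
  c : ImH

variable {n : ℕ}

lemma bracket_add_left (p p' q : V1 n) : bracket (p + p') q = bracket p q + bracket p' q := by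
  apply Subtype.ext
  simp only [bracket, Submodule.coe_add]
  rw [← smul_add]
  congr 1
  rw [show (∑ i, star (q i) * (p + p') i) = (∑ i, star (q i) * p i) + ∑ i, star (q i) * p' i by
    rw [← Finset.sum_add_distrib]
    refine Finset.sum_congr rfl fun i _ => ?_
    rw [PiLp.add_apply, mul_add]]
  ext <;> simp

lemma bracket_add_right (p q q' : V1 n) : bracket p (q + q') = bracket p q + bracket p q' := by
  apply Subtype.ext
  simp only [bracket, Submodule.coe_add]
  rw [← smul_add]
  congr 1
  rw [show (∑ i, star ((q + q') i) * p i) = (∑ i, star (q i) * p i) + ∑ i, star (q' i) * p i by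
    rw [← Finset.sum_add_distrib]
    refine Finset.sum_congr rfl fun i _ => ?_
    rw [PiLp.add_apply, star_add, add_mul]]
  ext <;> simp

lemma bracket_swap (p q : V1 n) : bracket p q = - bracket q p := by
  apply Subtype.ext
  simp only [bracket, Submodule.coe_neg]
  rw [← smul_neg]
  congr 1
  rw [show (∑ i, star (q i) * p i) = star (∑ i, star (p i) * q i) by
    rw [star_sum]
    refine Finset.sum_congr rfl fun i _ => ?_
    rw [star_mul, star_star]]
  generalize (∑ i, star (p i) * q i) = t
  ext <;> simp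

lemma bracket_self (p : V1 n) : bracket p p = 0 := by
  have h := bracket_swap p p
  have : (2 : ℝ) • bracket p p = 0 := by
    rw [two_smul]
    nth_rewrite 1 [h]
    rw [neg_add_cancel]
  exact (smul_eq_zero.1 this).resolve_left (by norm_num)

@[simp] lemma bracket_zero_left (q : V1 n) : bracket 0 q = 0 := by
  have := bracket_add_left 0 0 q
  rw [add_zero] at this
  simpa using this

@[simp] lemma bracket_zero_right (p : V1 n) : bracket p 0 = 0 := by
  rw [bracket_swap, bracket_zero_left, neg_zero]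

lemma bracket_neg_right (p q : V1 n) : bracket p (-q) = - bracket p q := by
  have := bracket_add_right p q (-q)
  rw [add_neg_cancel, bracket_zero_right] at this
  exact (neg_eq_of_add_eq_zero_right this.symm).symm

lemma bracket_neg_left (p q : V1 n) : bracket (-p) q = - bracket p q := by
  rw [bracket_swap, bracket_neg_right, neg_neg, bracket_swap q p]

/-- The group law `x * y = x + y + (1/2)[x,y]`. -/
instance : Mul (N n) := ⟨fun x y => ⟨x.h + y.h, x.c + y.c + (1 / 2 : ℝ) • bracket x.h y.h⟩⟩
instance : One (N n) := ⟨⟨0, 0⟩⟩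
instance : Inv (N n) := ⟨fun x => ⟨-x.h, -x.c⟩⟩

@[simp] lemma mul_h (x y : N n) : (x * y).h = x.h + y.h := rfl
@[simp] lemma mul_c (x y : N n) : (x * y).c = x.c + y.c + (1 / 2 : ℝ) • bracket x.h y.h := rfl
@[simp] lemma one_h : (1 : N n).h = 0 := rfl
@[simp] lemma one_c : (1 : N n).c = 0 := rfl
@[simp] lemma inv_h (x : N n) : (x⁻¹).h = -x.h := rfl
@[simp] lemma inv_c (x : N n) : (x⁻¹).c = -x.c := rfl

instance : Group (N n) :=
  Group.ofLeftAxioms
    (by
      intro x y z
      apply N.ext
      · simp [add_assoc]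
      · simp only [mul_c, mul_h, bracket_add_left, bracket_add_right, smul_add]
        abel)
    (by
      intro x
      apply N.ext <;> simp)
    (by
      intro x
      apply N.ext
      · simp
      · simp [bracket_neg_left, bracket_self])

/-- The usual topology of `V₁ ⊕ V₂`. -/
instance : TopologicalSpace (N n) := TopologicalSpace.induced (fun x => (x.h, x.c)) inferInstance

/-- The horizontal element `exp v`, `v ∈ V₁`. -/
def hor (v : V1 n) : N n := ⟨v, 0⟩

/-- The central element `exp z`, `z ∈ V₂`. -/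
def cen (z : ImH) : N n := ⟨0, z⟩

/-- Carnot length of `x`: the infimum of the lengths `∑ ‖vᵢ‖` of the piecewise linear horizontal
paths `1, exp v₁, exp v₁ exp v₂, …` ending at `x`. -/
def carnotLen (x : N n) : ℝ :=
  sInf {L : ℝ | ∃ l : List (V1 n), (l.map hor).prod = x ∧ (l.map (fun v => ‖v‖)).sum = L}

/-- The Carnot (sub-Riemannian) metric on `N`. -/
def carnotDist (x y : N n) : ℝ := carnotLen (x⁻¹ * y)

/-- `g : V₁ → V₂` is large scale Lipschitz. -/
def LargeScaleLipschitz (g : V1 n → ImH) : Prop :=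
  ∃ L A : ℝ, 0 ≤ L ∧ 0 ≤ A ∧ ∀ x y, ‖g x - g y‖ ≤ L * ‖x - y‖ + A

/-- The shear map `S_g(x) = x + g(π₁ x)`. -/
def shear (g : V1 n → ImH) : Equiv.Perm (N n) where
  toFun x := ⟨x.h, x.c + g x.h⟩
  invFun x := ⟨x.h, x.c - g x.h⟩
  left_inv x := by apply N.ext <;> simp
  right_inv x := by apply N.ext <;> simp

/-- Affine maps: the group generated by left translations and Lie group automorphisms. -/
def affineGroup (n : ℕ) : Subgroup (Equiv.Perm (N n)) :=
  Subgroup.closure ({f | ∃ g : N n, f = Equiv.mulLeft g} ∪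
    {f | ∃ e : N n ≃* N n, Continuous e ∧ Continuous e.symm ∧ f = e.toEquiv})

/-- Generalized affine maps: the group generated by the affine maps and all shear maps. -/
def generalizedAffineGroup (n : ℕ) : Subgroup (Equiv.Perm (N n)) :=
  Subgroup.closure ((affineGroup n : Set (Equiv.Perm (N n))) ∪
    {f | ∃ g : V1 n → ImH, LargeScaleLipschitz g ∧ f = shear g})

/-- Quasi-isometries of `(N, d)`. -/
def IsQuasiIsometry (d : N n → N n → ℝ) (F : N n → N n) : Prop :=
  ∃ L A : ℝ, 1 ≤ L ∧ 0 ≤ A ∧ (∀ x y, d x y / L - A ≤ d (F x) (F y) ∧ d (F x) (F y) ≤ L * d x y + A) ∧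
    ∀ y, ∃ x, d (F x) y ≤ A

/-- Two maps are at finite distance. -/
def FiniteDistance (d : N n → N n → ℝ) (f g : N n → N n) : Prop :=
  ∃ C : ℝ, ∀ x, d (f x) (g x) ≤ C

end Pool.Agent.H808R3.QH
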