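import Pool.Agent.H808R3.QH.Defs

set_option autoImplicit false

namespace Pool.Agent.H808R3.QH

variable {n : ℕ}

/-- total length of a list of horizontal vectors -/
noncomputable def tot (l : List (V1 n)) : ℝ := (l.map (fun v => ‖v‖)).sum

@[simp] lemma tot_nil : tot ([] : List (V1 n)) = 0 := rfl
@[simp] lemma tot_cons (v : V1 n) (l : List (V1 n)) : tot (v :: l) = ‖v‖ + tot l := by
  simp [tot]
lemma tot_append (l m : List (V1 n)) : tot (l ++ m) = tot l + tot m := by
  simp [tot]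
lemma tot_nonneg (l : List (V1 n)) : 0 ≤ tot l := by
  induction l with
  | nil => simp
  | cons v l ih => rw [tot_cons]; positivity

lemma hor_mul_neg (v : V1 n) : hor v * hor (-v) = 1 := by
  apply N.ext
  · simp [hor]
  · simp [hor, bracket_neg_right, bracket_self]

lemma hor_inv (v : V1 n) : (hor v)⁻¹ = hor (-v) := by
  rw [inv_eq_iff_mul_eq_one]
  exact hor_mul_neg v

lemma prod_reverse_neg (l : List (V1 n)) :
    (((l.map (fun v => -v)).reverse).map hor).prod = ((l.map hor).prod)⁻¹ := by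
  induction l with
  | nil => simp
  | cons v l ih =>
    have e : (List.map hor (v :: l)).prod = hor v * (l.map hor).prod := by simp
    rw [e, mul_inv_rev, hor_inv, ← ih]
    simp

lemma tot_reverse_neg (l : List (V1 n)) : tot ((l.map (fun v => -v)).reverse) = tot l := by
  induction l with
  | nil => simp
  | cons v l ih =>
    rw [List.map_cons, List.reverse_cons, tot_append, ih]
    simp [add_comm]

/-- the set of lengths -/
def lens (x : N n) : Set ℝ :=
  {L : ℝ | ∃ l : List (V1 n), (l.map hor).prod = x ∧ (l.map (fun v => ‖v‖)).sum = L}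

lemma mem_lens (l : List (V1 n)) : tot l ∈ lens ((l.map hor).prod) := ⟨l, rfl, rfl⟩

lemma lens_bdd (x : N n) : BddBelow (lens x) := by
  refine ⟨0, ?_⟩
  rintro _ ⟨l, -, rfl⟩
  exact tot_nonneg l

lemma carnotLen_eq (x : N n) : carnotLen x = sInf (lens x) := rfl

lemma carnotLen_le (x : N n) (l : List (V1 n)) (h : (l.map hor).prod = x) : carnotLen x ≤ tot l :=
  csInf_le (lens_bdd x) ⟨l, h, rfl⟩

lemma commutator (p q : V1 n) : hor p * hor q * hor (-p) * hor (-q) = cen (bracket p q) := by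
  apply N.ext
  · simp [hor, cen]
  · simp only [hor, cen, mul_c, mul_h, bracket_add_left, bracket_neg_right, bracket_self,
      bracket_neg_left, add_zero, zero_add]
    rw [bracket_swap q p]
    module

/-- the vector with quaternion `a` in the coordinate `i` -/
noncomputable def sng (i : Fin n) (a : Quaternion ℝ) : V1 n := PiLp.single 2 i a

lemma norm_sng (i : Fin n) (a : Quaternion ℝ) : ‖sng i a‖ = ‖a‖ := by
  unfold sng
  simp

lemma bracket_sng (i : Fin n) (t : ℝ) (w : ImH) :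
    bracket (sng i (t : Quaternion ℝ)) (sng i (-(w : Quaternion ℝ))) = (2 * t) • w := by
  apply Subtype.ext
  have hw : (w : Quaternion ℝ).re = 0 := w.2
  simp only [bracket, sng]
  rw [Finset.sum_eq_single i]
  · have e1 : (PiLp.single 2 i (t : Quaternion ℝ) : V1 n) i = (t : Quaternion ℝ) := by simp
    have e2 : (PiLp.single 2 i (-(w : Quaternion ℝ)) : V1 n) i = -(w : Quaternion ℝ) := by simp
    rw [e1, e2]
    ext <;> simp [hw] <;> ring
  · intro j _ hj
    have e1 : (PiLp.single 2 i (t : Quaternion ℝ) : V1 n) j = 0 := by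
      simp [hj]
    rw [e1, mul_zero]
  · intro h
    exact absurd (Finset.mem_univ _) h

/-- Every central element is a commutator of two horizontal elements of small norm. -/
lemma cen_list (hn : 1 ≤ n) (z : ImH) :
    ∃ l : List (V1 n), (l.map hor).prod = cen z ∧ tot l = 3 * Real.sqrt ‖z‖ := by
  by_cases hz : z = 0
  · subst hz
    exact ⟨[], by simp [cen]; rfl, by simp⟩
  have hzn : 0 < ‖z‖ := norm_pos_iff.2 hz
  set t : ℝ := Real.sqrt ‖z‖ with ht
  have htp : 0 < t := Real.sqrt_pos.2 hzn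
  have htt : t * t = ‖z‖ := Real.mul_self_sqrt hzn.le
  set i : Fin n := ⟨0, hn⟩
  set w : ImH := (1 / (2 * t)) • z with hw
  set p : V1 n := sng i (t : Quaternion ℝ) with hp
  set q : V1 n := sng i (-(w : Quaternion ℝ)) with hq
  have hb : bracket p q = z := by
    rw [hp, hq, bracket_sng, hw, smul_smul]
    rw [mul_one_div, div_self (by positivity), one_smul]
  have hnp : ‖p‖ = t := by
    rw [hp, norm_sng, Quaternion.norm_coe, Real.norm_eq_abs, abs_of_pos htp]
  have hnq : ‖q‖ = t / 2 := by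
    rw [hq, norm_sng, norm_neg]
    have : ‖(w : Quaternion ℝ)‖ = ‖w‖ := rfl
    rw [this, hw, norm_smul, Real.norm_eq_abs, abs_of_pos (by positivity), ← htt]
    field_simp
  refine ⟨[p, q, -p, -q], ?_, ?_⟩
  · have := commutator p q
    rw [hb] at this
    simpa [mul_assoc] using this
  · simp only [tot_cons, tot_nil, norm_neg, hnp, hnq]
    ring

lemma decomp (x : N n) : x = hor x.h * cen x.c := by
  apply N.ext <;> simp [hor, cen]

lemma lens_nonempty (hn : 1 ≤ n) (x : N n) : (lens x).Nonempty := by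
  obtain ⟨l, hl, -⟩ := cen_list hn x.c
  refine ⟨tot (x.h :: l), x.h :: l, ?_, rfl⟩
  rw [List.map_cons, List.prod_cons, hl]
  exact (decomp x).symm

lemma carnotLen_nonneg (hn : 1 ≤ n) (x : N n) : 0 ≤ carnotLen x := by
  apply le_csInf (lens_nonempty hn x)
  rintro _ ⟨l, -, rfl⟩
  exact tot_nonneg l

lemma carnotLen_one (hn : 1 ≤ n) : carnotLen (1 : N n) = 0 :=
  le_antisymm (by simpa using carnotLen_le (1 : N n) [] (by simp)) (carnotLen_nonneg hn 1)

lemma carnotLen_mul (hn : 1 ≤ n) (x y : N n) : carnotLen (x * y) ≤ carnotLen x + carnotLen y := by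
  apply le_of_forall_pos_le_add
  intro ε hε
  obtain ⟨_, ⟨l, hl, rfl⟩, h1⟩ := exists_lt_of_csInf_lt (lens_nonempty hn x)
    (show sInf (lens x) < carnotLen x + ε / 2 by rw [← carnotLen_eq]; linarith)
  obtain ⟨_, ⟨m, hm, rfl⟩, h2⟩ := exists_lt_of_csInf_lt (lens_nonempty hn y)
    (show sInf (lens y) < carnotLen y + ε / 2 by rw [← carnotLen_eq]; linarith)
  have h3 := carnotLen_le (x * y) (l ++ m) (by rw [List.map_append, List.prod_append, hl, hm])
  rw [tot_append] at h3
  change tot l < _ at h1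
  change tot m < _ at h2
  linarith

lemma carnotLen_inv_le (hn : 1 ≤ n) (x : N n) : carnotLen x⁻¹ ≤ carnotLen x := by
  apply le_csInf (lens_nonempty hn x)
  rintro _ ⟨l, hl, rfl⟩
  have := carnotLen_le x⁻¹ ((l.map (fun v => -v)).reverse) (by rw [prod_reverse_neg, hl])
  rw [tot_reverse_neg] at this
  exact this

lemma carnotLen_inv (hn : 1 ≤ n) (x : N n) : carnotLen x⁻¹ = carnotLen x :=
  le_antisymm (carnotLen_inv_le hn x) (by simpa using carnotLen_inv_le hn x⁻¹)

lemma carnotLen_cen_le (hn : 1 ≤ n) (z : ImH) : carnotLen (cen z : N n) ≤ 3 * Real.sqrt ‖z‖ := by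
  obtain ⟨l, hl, ht⟩ := cen_list hn z
  rw [← ht]
  exact carnotLen_le _ l hl

lemma norm_im_le (a : Quaternion ℝ) : ‖a.im‖ ≤ ‖a‖ := by
  have h1 : ‖a.im‖ * ‖a.im‖ ≤ ‖a‖ * ‖a‖ := by
    rw [← Quaternion.normSq_eq_norm_mul_self, ← Quaternion.normSq_eq_norm_mul_self,
      Quaternion.normSq_def', Quaternion.normSq_def']
    simp
    positivity
  exact abs_le_abs_of_nonneg_of_sq h1
where
  abs_le_abs_of_nonneg_of_sq {a : Quaternion ℝ} (h : ‖a.im‖ * ‖a.im‖ ≤ ‖a‖ * ‖a‖) :
      ‖a.im‖ ≤ ‖a‖ := by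
    by_contra hc
    push Not at hc
    have := mul_self_lt_mul_self (norm_nonneg a) hc
    linarith

lemma bracket_norm_le (p q : V1 n) : ‖bracket p q‖ ≤ 2 * (n : ℝ) * ‖p‖ * ‖q‖ := by
  have h0 : ‖bracket p q‖ = ‖((2 : ℝ) • (∑ i, star (q i) * p i).im : Quaternion ℝ)‖ := rfl
  rw [h0, norm_smul, Real.norm_eq_abs, abs_of_pos (by norm_num : (0:ℝ) < 2)]
  have h1 : ‖(∑ i, star (q i) * p i : Quaternion ℝ)‖ ≤ (n : ℝ) * (‖p‖ * ‖q‖) := by
    calc ‖(∑ i, star (q i) * p i : Quaternion ℝ)‖ ≤ ∑ i, ‖star (q i) * p i‖ := norm_sum_le _ _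
      _ ≤ ∑ _i : Fin n, ‖p‖ * ‖q‖ := by
          refine Finset.sum_le_sum fun i _ => ?_
          rw [norm_mul, norm_star, mul_comm]
          exact mul_le_mul (PiLp.norm_apply_le p i) (PiLp.norm_apply_le q i) (norm_nonneg _)
            (norm_nonneg _)
      _ = (n : ℝ) * (‖p‖ * ‖q‖) := by simp
  have h2 := norm_im_le (∑ i, star (q i) * p i)
  nlinarith

lemma list_bounds (l : List (V1 n)) : ‖((l.map hor).prod).h‖ ≤ tot l ∧
    ‖((l.map hor).prod).c‖ ≤ (n : ℝ) * (tot l) ^ 2 := by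
  induction l with
  | nil => simp
  | cons v l ih =>
    obtain ⟨h1, h2⟩ := ih
    rw [List.map_cons, List.prod_cons, mul_h, mul_c, tot_cons]
    have ht := tot_nonneg l
    have hv := norm_nonneg v
    have hnn : (0 : ℝ) ≤ n := Nat.cast_nonneg n
    constructor
    · exact (norm_add_le _ _).trans (add_le_add le_rfl h1)
    · have e : (hor v : N n).c = 0 := rfl
      have e' : (hor v : N n).h = v := rfl
      rw [e, e', zero_add]
      have h3 : ‖(1 / 2 : ℝ) • bracket v ((l.map hor).prod).h‖ ≤ (n : ℝ) * ‖v‖ * tot l := by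
        rw [norm_smul, Real.norm_eq_abs, abs_of_pos (by norm_num : (0:ℝ) < 1/2)]
        have := bracket_norm_le v ((l.map hor).prod).h
        have h4 : (n : ℝ) * ‖v‖ * ‖((l.map hor).prod).h‖ ≤ (n : ℝ) * ‖v‖ * tot l := by gcongr
        nlinarith
      have h5 := norm_add_le ((l.map hor).prod).c ((1 / 2 : ℝ) • bracket v ((l.map hor).prod).h)
      have h6 : (n : ℝ) * (‖v‖ + tot l) ^ 2 = (n : ℝ) * ‖v‖ ^ 2 + 2 * ((n : ℝ) * ‖v‖ * tot l)
          + (n : ℝ) * tot l ^ 2 := by ring
      have h7 : 0 ≤ (n : ℝ) * ‖v‖ ^ 2 := by positivity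
      have h8 : 0 ≤ (n : ℝ) * ‖v‖ * tot l := by positivity
      linarith

/-- lower bound for the Carnot length -/
lemma norm_c_le (hn : 1 ≤ n) (x : N n) : ‖x.c‖ ≤ (n : ℝ) * (carnotLen x) ^ 2 := by
  have hnn : (0 : ℝ) < n := by exact_mod_cast hn
  have h1 : Real.sqrt (‖x.c‖ / n) ≤ carnotLen x := by
    apply le_csInf (lens_nonempty hn x)
    rintro _ ⟨l, hl, rfl⟩
    have h2 := (list_bounds l).2
    rw [hl] at h2
    change _ ≤ tot l
    rw [Real.sqrt_le_left (tot_nonneg l), div_le_iff₀ hnn]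
    linarith
  have h3 : (Real.sqrt (‖x.c‖ / n)) ^ 2 ≤ (carnotLen x) ^ 2 := by
    apply pow_le_pow_left₀ (Real.sqrt_nonneg _) h1
  rw [Real.sq_sqrt (by positivity), div_le_iff₀ hnn] at h3
  linarith

end Pool.Agent.H808R3.QH
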